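import Pool.Agent.X15.ML.Conv
import Pool.Agent.TH444.ML.WrG
import Pool.Agent.TH59.WX.UG

/-!
Extensions in the class: surjectivity, realizability, small core-free subgroups.
-/

set_option autoImplicit false
set_option linter.unusedSectionVars false

namespace Pool.Agent.X15.ML

open Nfff32c05
open Pool.Agent.TH444.TW (Cls)
open Pool.Agent.H391R2 (Wr isRealizable_quotient)

theorem num_bound {c m : ℕ} (hc : 1 ≤ c) (hm : 128 * c ^ 2 + 3 ≤ m) :
    2 * (8 * (c * m) * (c * m + 1)) ≤ m.factorial := by
  obtain ⟨r, rfl⟩ : ∃ r, m = r + 2 := ⟨m - 2, by omega⟩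
  have h1 : (r + 2).factorial = (r + 2) * ((r + 1) * r.factorial) := by
    rw [Nat.factorial_succ, Nat.factorial_succ]
  have h2 : r ≤ r.factorial := Nat.self_le_factorial r
  have h3 : 128 * c ^ 2 ≤ r := by omega
  rw [h1]
  have h4 : 2 * (8 * (c * (r + 2)) * (c * (r + 2) + 1)) ≤ (r + 2) * (32 * c ^ 2 * (r + 2)) := by
    have : 1 ≤ c * (r + 2) := Nat.one_le_iff_ne_zero.2 (by positivity)
    nlinarith
  refine h4.trans (Nat.mul_le_mul_left _ ?_)
  calc 32 * c ^ 2 * (r + 2) ≤ (r + 1) * (128 * c ^ 2) := by nlinarith [sq_nonneg c]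
    _ ≤ (r + 1) * r.factorial := Nat.mul_le_mul_left _ (h3.trans h2)

/-- the homomorphisms of the class are surjective -/
theorem cls_surj {K : Type} [Field K] {W W' : Type} [Group W] [Group W'] {p : W' →* W}
    (h : Cls K p) : Function.Surjective p := by
  induction h with
  | abelian p s hs hfin hcomm => exact fun w => ⟨s w, hs w⟩
  | inner p A hA hp =>
    obtain ⟨k, ψ, ι, s, hι, hr, hs, hc⟩ := hp
    exact fun w => ⟨s w, hs w⟩
  | wreath p G n hn hp =>
    obtain ⟨k, ψ, ι, s, hι, hr, hs, hc⟩ := hp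
    exact fun w => ⟨s w, hs w⟩
  | kernel p hs I G hZ hT n hn hN => exact hs
  | comp p q hp hq ihp ihq => exact ihp.comp ihq
  | quot p q hq hpq ih => exact Function.Surjective.of_comp ih

/-- a quotient of a finite Galois group is a Galois group -/
theorem real_quot (K X Γ : Type) [Field K] [Group X] [Finite X] [Group Γ] (p : X →* Γ)
    (hp : Function.Surjective p) (h : IsRealizable K X) : IsRealizable K Γ := by
  obtain ⟨L, i1, i2, i3, i4, ⟨f⟩⟩ := Pool.Agent.TH59.WX.exists_gal_of K X h
  exact isRealizable_quotient L (p.comp f.symm.toMonoidHom) (hp.comp f.symm.surjective)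

/-- isomorphisms are in the class -/
theorem cls_equiv (K : Type) [Field K] {W W' : Type} [Group W] [Group W'] (e : W' ≃* W) :
    Cls K e.toMonoidHom := by
  have hk : e.toMonoidHom.ker = ⊥ := (MonoidHom.ker_eq_bot_iff _).2 e.injective
  refine Cls.abelian _ e.symm.toMonoidHom (fun w => e.apply_symm_apply w) ?_ ?_
  · rw [hk]
    infer_instance
  · intro x y hx hy
    have h1 : x = 1 := e.injective (by simpa using hx)
    have h2 : y = 1 := e.injective (by simpa using hy)
    rw [h1, h2]

/-- groups of the class over realizable groups are realizable -/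
theorem gal_of_cls (K : Type) [Field K] [NumberField K] (Γ X : Type) [Group Γ] [Finite Γ]
    [Group X] (p : X →* Γ) (hp : Cls K p) (h : IsRealizable K Γ) :
    (Pool.Agent.TH444.ML.Gal K (AlgebraicClosure K) X).Nonempty := by
  have hX : Finite X := hp.finite
  obtain ⟨L, i1, i2, i3, i4, ⟨f⟩⟩ := Pool.Agent.TH59.WX.exists_gal_of K Γ h
  exact Pool.Agent.TH444.ML.gal_nonempty K (AlgebraicClosure K) L X (f.toMonoidHom.comp p)
    (Cls.comp _ _ (cls_equiv K f) hp)

/-- a small core-free subgroup of an extension by `G ≀ S_n` -/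
theorem small_ext (Γ X G : Type) [Group Γ] [Finite Γ] [Group X] [Group G] [Finite G] (n : ℕ)
    (hn : 128 * (Nat.card Γ * Nat.card G) ^ 2 + 3 ≤ n) (p : X →* Γ)
    (hp : Function.Surjective p) (e : p.ker ≃* Wr G n) :
    ∃ U : Subgroup X, U.normalCore = ⊥ ∧ 8 * U.index * (U.index + 1) ≤ Nat.card X := by
  obtain ⟨U, hU1, hU2⟩ := Pool.Agent.TH444.ML.wr_core G n (by omega)
  have hΓ : 0 < Nat.card Γ := Nat.card_pos
  have hG : 0 < Nat.card G := Nat.card_pos
  refine ⟨(U.comap e.toMonoidHom).map p.ker.subtype, ?_, ?_⟩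
  · rw [eq_bot_iff]
    intro x hx
    rw [Subgroup.mem_bot]
    have h1 : x ∈ (U.comap e.toMonoidHom).map p.ker.subtype := Subgroup.normalCore_le _ hx
    obtain ⟨x', hx', rfl⟩ := h1
    have h2 : e x' ∈ U.normalCore := by
      intro w
      have h3 := hx ((e.symm w : p.ker) : X)
      obtain ⟨y, hy, hyx⟩ := h3
      have h4 : y = e.symm w * x' * (e.symm w)⁻¹ := by
        apply Subtype.ext
        rw [Subgroup.coe_mul, Subgroup.coe_mul, Subgroup.coe_inv]
        exact hyx
      have h5 : e y ∈ U := hy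
      rw [h4, map_mul, map_mul, map_inv, e.apply_symm_apply] at h5
      exact h5
    rw [hU1, Subgroup.mem_bot] at h2
    have h6 : x' = 1 := e.injective (by rw [h2, map_one])
    rw [h6]
    rfl
  · have h1 : ((U.comap e.toMonoidHom).map p.ker.subtype).index =
        (Nat.card G * n) * Nat.card Γ := by
      rw [Subgroup.index_map_subtype, Subgroup.index_comap_of_surjective U e.surjective, hU2,
        Subgroup.index_ker, MonoidHom.range_eq_top.2 hp, Subgroup.card_top]
    have h2 : n.factorial ≤ Nat.card X := by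
      have h3 := p.ker.card_mul_index
      rw [Subgroup.index_ker, MonoidHom.range_eq_top.2 hp, Subgroup.card_top,
        Nat.card_congr e.toEquiv, Pool.Agent.TH444.ML.wr_card] at h3
      rw [← h3]
      have h4 : 0 < Nat.card G ^ n := Nat.pow_pos hG
      calc n.factorial = 1 * n.factorial * 1 := by ring
        _ ≤ Nat.card G ^ n * n.factorial * Nat.card Γ := by
          gcongr <;> omega
    rw [h1]
    have h5 := num_bound (c := Nat.card Γ * Nat.card G) (m := n) (by nlinarith) hn
    have h6 : Nat.card G * n * Nat.card Γ = Nat.card Γ * Nat.card G * n := by ring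
    rw [h6]
    omega

end Pool.Agent.X15.ML
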