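import Mathlib
import Pool.Agent.H391R2.WrRes

/-!
From a field whose Galois group is `C₂ ≀ X` to a Galois extension with group `X`.
-/

set_option autoImplicit false

namespace Pool.Agent.X15.ML

open Nfff32c05

/-- the wreath product `C₂ ≀ X` as a subgroup of the symmetric group on `X × {0, 1}`, numbered by `f` -/
def wrG {X : Type} [Group X] {d : ℕ} (f : Fin d ≃ X × Bool) : Subgroup (Equiv.Perm (Fin d)) where
  carrier := {π | ∃ h : X, ∀ i, (f (π i)).1 = h * (f i).1}
  mul_mem' := by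
    rintro π π' ⟨h, hh⟩ ⟨h', hh'⟩
    refine ⟨h * h', fun i => ?_⟩
    rw [Equiv.Perm.mul_apply, hh, hh', mul_assoc]
  one_mem' := ⟨1, fun i => by simp⟩
  inv_mem' := by
    rintro π ⟨h, hh⟩
    refine ⟨h⁻¹, fun i => ?_⟩
    have := hh (π⁻¹ i)
    have e1 : π (π⁻¹ i) = i := π.apply_symm_apply i
    rw [e1] at this
    rw [this, inv_mul_cancel_left]

/-- Galois groups of fields with group `C₂ ≀ X` have the quotient `X`. -/
theorem real_of_field (K : Type) [Field K] [CharZero K] (X : Type) [Group X] [Finite X]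
    (L : IntermediateField K (AlgebraicClosure K)) [FiniteDimensional K L]
    {d : ℕ} (f : Fin d ≃ X × Bool)
    (e : (L →ₐ[K] AlgebraicClosure K) ≃ Fin d)
    (he : ∀ π : Equiv.Perm (Fin d), (∃ h : X, ∀ i, (f (π i)).1 = h * (f i).1) ↔
      ∃ σ : AlgebraicClosure K ≃ₐ[K] AlgebraicClosure K,
        ∀ φ : L →ₐ[K] AlgebraicClosure K, e (σ.toAlgHom.comp φ) = π (e φ)) :
    IsRealizable K X := by
  classical
  let Ω := AlgebraicClosure K
  -- the action on the embeddings
  let ρ : (Ω ≃ₐ[K] Ω) → Equiv.Perm (Fin d) := fun σ =>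
    { toFun := fun i => e (σ.toAlgHom.comp (e.symm i))
      invFun := fun i => e (σ.symm.toAlgHom.comp (e.symm i))
      left_inv := fun i => by
        simp only [Equiv.symm_apply_apply]
        have : σ.symm.toAlgHom.comp (σ.toAlgHom.comp (e.symm i)) = e.symm i := by
          ext x
          exact σ.symm_apply_apply _
        rw [this, Equiv.apply_symm_apply]
      right_inv := fun i => by
        simp only [Equiv.symm_apply_apply]
        have : σ.toAlgHom.comp (σ.symm.toAlgHom.comp (e.symm i)) = e.symm i := by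
          ext x
          exact σ.apply_symm_apply _
        rw [this, Equiv.apply_symm_apply] }
  have hρ : ∀ σ φ, e (σ.toAlgHom.comp φ) = ρ σ (e φ) := by
    intro σ φ
    change _ = e (σ.toAlgHom.comp (e.symm (e φ)))
    rw [Equiv.symm_apply_apply]
  have hρmul : ∀ σ τ, ρ (σ * τ) = ρ σ * ρ τ := by
    intro σ τ
    apply Equiv.ext
    intro i
    obtain ⟨φ, rfl⟩ := e.surjective i
    rw [Equiv.Perm.mul_apply, ← hρ, ← hρ, ← hρ]
    rfl
  have hmem : ∀ σ, ∃ h : X, ∀ i, (f (ρ σ i)).1 = h * (f i).1 := fun σ =>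
    (he (ρ σ)).2 ⟨σ, hρ σ⟩
  choose h hh using hmem
  let i₀ : Fin d := f.symm (1, true)
  have hval : ∀ σ, h σ = (f (ρ σ i₀)).1 := by
    intro σ
    rw [hh σ i₀]
    simp [i₀]
  let θ : (Ω ≃ₐ[K] Ω) →* X := MonoidHom.mk' h (by
    intro σ τ
    rw [hval (σ * τ), hρmul, Equiv.Perm.mul_apply, hh σ, hh τ]
    simp [i₀])
  have hθ : ∀ σ, θ σ = h σ := fun σ => rfl
  have hθs : Function.Surjective θ := by
    intro x
    let π : Equiv.Perm (Fin d) :=
      (f.trans ((Equiv.mulLeft x).prodCongr (Equiv.refl Bool))).trans f.symm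
    have hπ : ∀ i, (f (π i)).1 = x * (f i).1 := by
      intro i
      simp [π]
    obtain ⟨σ, hσ⟩ := (he π).1 ⟨x, hπ⟩
    refine ⟨σ, ?_⟩
    have h1 : ρ σ = π := by
      apply Equiv.ext
      intro i
      obtain ⟨φ, rfl⟩ := e.surjective i
      rw [← hρ, hσ]
    rw [hθ, hval, h1, hπ]
    simp [i₀]
  let M := IntermediateField.normalClosure K L Ω
  have hM1 : FiniteDimensional K M := inferInstance
  have hM2 : Normal K M := inferInstance
  have hM3 : IsGalois K M := ⟨⟩
  have hr : Function.Surjective (AlgEquiv.restrictNormalHom (F := K) (K₁ := Ω) M) :=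
    AlgEquiv.restrictNormalHom_surjective Ω
  have hker : (AlgEquiv.restrictNormalHom (F := K) (K₁ := Ω) M).ker ≤ θ.ker := by
    intro σ hσ
    rw [MonoidHom.mem_ker] at hσ ⊢
    have h1 : ∀ x ∈ M, σ x = x := by
      intro x hx
      have h2 := AlgEquiv.restrictNormal_commutes σ M ⟨x, hx⟩
      have h3 : σ.restrictNormal M = 1 := hσ
      rw [h3] at h2
      exact h2.symm
    have h4 : ρ σ = 1 := by
      apply Equiv.ext
      intro i
      obtain ⟨φ, rfl⟩ := e.surjective i
      rw [← hρ, Equiv.Perm.one_apply]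
      congr 1
      ext x
      exact h1 _ (AlgHom.fieldRange_le_normalClosure φ ⟨x, rfl⟩)
    rw [hθ, hval, h4]
    simp [i₀]
  let τ : (M ≃ₐ[K] M) →* X :=
    (AlgEquiv.restrictNormalHom (F := K) (K₁ := Ω) M).liftOfSurjective hr ⟨θ, hker⟩
  have hτ : ∀ σ, τ (AlgEquiv.restrictNormalHom (F := K) (K₁ := Ω) M σ) = θ σ := fun σ =>
    MonoidHom.liftOfRightInverse_comp_apply _ _ _ ⟨θ, hker⟩ σ
  have hτs : Function.Surjective τ := by
    intro x
    obtain ⟨σ, rfl⟩ := hθs x
    exact ⟨_, hτ σ⟩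
  exact Pool.Agent.H391R2.isRealizable_quotient M τ hτs

end Pool.Agent.X15.ML
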